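import Pool.Agent.Results.MP_d84bc5_an.PackingCovering
import Pool.Agent.J4.H78.PC.Core

/-!
# MP_d84bc5_an: `γ(ℓ₁ ⊕₂ Y) = γ*(ℓ₁ ⊕₂ Y) = 2/√3` for every separable Hilbert space `Y ≠ 0`

In particular `γ(ℓ₁ ⊕₂ ℓ₂) = γ*(ℓ₁ ⊕₂ ℓ₂) = 2/√3` (Q2).
-/

open scoped ENNReal
open WithLp Filter Topology
open Pool.Agent.Results.MP_d84bc5_an.PackingCovering

namespace Pool.Agent.Results.MP_d84bc5_an.HilbertSummand

section machinery

variable {Y : Type*} [NormedAddCommGroup Y]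

/-- Norms of the first coordinates of the elements of the enlarged group. -/
lemma norm_split {k : ℕ} {a b : L1} (ha : ∀ i, k ≤ i → a i = 0) (hb : ∀ i, k ≤ i → b i = 0)
    (c : L1) (m : ℤ) (τ : ℝ) :
    ‖c - (b + m • (a + lp.single 1 k τ))‖ =
      ‖(c - lp.single 1 k (c k) - m • a) - b‖ + |c k - m * τ| := by
  have e : c - (b + m • (a + lp.single 1 k τ)) =
      ((c - lp.single 1 k (c k) - m • a) - b) + lp.single 1 k (c k - m * τ) := by
    have h1 : m • (lp.single 1 k τ : L1) = lp.single 1 k ((m : ℝ) * τ) := by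
      rw [← Int.cast_smul_eq_zsmul ℝ, ← lp.single_smul, smul_eq_mul]
    rw [smul_add, h1, lp.single_sub]
    abel
  rw [e, norm_add_single]
  have h3 : (m • a : L1) k = m • (a k) := by
    rw [← Int.cast_smul_eq_zsmul ℝ, lp.coeFn_smul, Pi.smul_apply, Int.cast_smul_eq_zsmul]
  rw [lp.coeFn_sub, Pi.sub_apply, lp.coeFn_sub, Pi.sub_apply, lp.coeFn_sub, Pi.sub_apply, h3,
    ha k le_rfl, hb k le_rfl]
  simp

/-- The invariant of the construction. -/
structure Inv (G : AddSubgroup (WithLp 2 (L1 × Y))) : Prop where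
  sep : ∀ g ∈ G, g ≠ 0 → 2 ≤ ‖g‖
  one : ∀ g ∈ G, g ≠ 0 → 1 ≤ ‖g.fst‖
  near : ∀ g ∈ G, g ≠ 0 → ‖g.fst‖ < 2 / √3 → ‖g.snd‖ ≤ √3
  three : ∀ c : L1, ∀ u ∈ G, ∀ v ∈ G, ∀ w ∈ G, u ≠ v → u ≠ w → v ≠ w →
    2 ≤ ‖c - u.fst‖ + ‖c - v.fst‖ + ‖c - w.fst‖

lemma inv_bot : Inv (⊥ : AddSubgroup (WithLp 2 (L1 × Y))) where
  sep := fun g hg hg0 => absurd (AddSubgroup.mem_bot.1 hg) hg0
  one := fun g hg hg0 => absurd (AddSubgroup.mem_bot.1 hg) hg0
  near := fun g hg hg0 => absurd (AddSubgroup.mem_bot.1 hg) hg0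
  three := fun c u hu v hv w hw huv => by
    rw [AddSubgroup.mem_bot] at hu hv
    exact absurd (hu.trans hv.symm) huv

lemma Inv.two {G : AddSubgroup (WithLp 2 (L1 × Y))} (hG : Inv G) (c : L1)
    {u v : WithLp 2 (L1 × Y)} (hu : u ∈ G) (hv : v ∈ G) (huv : u ≠ v) :
    1 ≤ ‖c - u.fst‖ + ‖c - v.fst‖ := by
  have h1 := hG.one (u - v) (sub_mem hu hv) (sub_ne_zero.2 huv)
  rw [WithLp.sub_fst] at h1
  have h2 : ‖u.fst - v.fst‖ ≤ ‖c - u.fst‖ + ‖c - v.fst‖ := by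
    have : u.fst - v.fst = (c - v.fst) - (c - u.fst) := by abel
    rw [this]
    linarith [norm_sub_le (c - v.fst) (c - u.fst)]
  linarith

lemma int_gap {α τ : ℝ} (hτ : 1 ≤ τ) {m n : ℤ} (N : ℕ) (h : (N : ℤ) ≤ |m - n|) :
    (N : ℝ) ≤ |α - m * τ| + |α - n * τ| := by
  have h1 : (N : ℝ) ≤ |(m : ℝ) - n| := by exact_mod_cast h
  have h2 : |((m : ℝ) - n) * τ| ≤ |α - m * τ| + |α - n * τ| := by
    have : ((m : ℝ) - n) * τ = (α - n * τ) - (α - m * τ) := by ring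
    rw [this]
    linarith [abs_sub (α - n * τ) (α - m * τ)]
  rw [abs_mul, abs_of_pos (by linarith : (0:ℝ) < τ)] at h2
  nlinarith [abs_nonneg ((m : ℝ) - n)]

/-- Adding one generator. -/
lemma add_gen' (k : ℕ) (G : AddSubgroup (WithLp 2 (L1 × Y))) (hG : G ≤ Vk Y k) (hI : Inv G)
    (τ : ℝ) (hτ1 : 1 ≤ τ) (a : L1) (ha : ∀ i, k ≤ i → a i = 0) (h : Y)
    (hg : ∀ y ∈ G, 2 ≤ ‖toLp 2 (a + lp.single 1 k τ, h) - y‖)
    (hg' : ∀ y ∈ G, ‖a - y.fst‖ + τ < 2 / √3 → ‖h - y.snd‖ ≤ √3) :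
    Inv (G ⊔ AddSubgroup.zmultiples (toLp 2 (a + lp.single 1 k τ, h))) ∧
    G ⊔ AddSubgroup.zmultiples (toLp 2 (a + lp.single 1 k τ, h)) ≤ Vk Y (k + 1) := by
  set g₁ : WithLp 2 (L1 × Y) := toLp 2 (a + lp.single 1 k τ, h) with hg₁
  have hg₁V : g₁ ∈ Vk Y (k + 1) := by
    intro i hi
    have : i ≠ k := by omega
    simp [hg₁, ha i (by omega), Pi.single_eq_of_ne this]
  have hτ0 : 0 < τ := by linarith
  have hfst : ∀ (y : WithLp 2 (L1 × Y)) (m : ℤ),
      (y + m • g₁).fst = y.fst + m • (a + lp.single 1 k τ) := by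
    intro y m
    rfl
  have hsplit : ∀ y ∈ G, ∀ (c : L1) (m : ℤ), ‖c - (y + m • g₁).fst‖ =
      ‖(c - lp.single 1 k (c k) - m • a) - y.fst‖ + |c k - m * τ| := by
    intro y hy c m
    rw [hfst]
    exact norm_split ha (hG hy) c m τ
  have hnorm : ∀ y ∈ G, ∀ m : ℤ, |(m : ℝ)| * τ ≤ ‖(y + m • g₁).fst‖ := by
    intro y hy m
    have h1 := hsplit y hy 0 m
    rw [zero_sub, norm_neg] at h1
    rw [h1]
    have h2 : |(0 : L1) k - m * τ| = |(m : ℝ)| * τ := by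
      rw [lp.coeFn_zero, Pi.zero_apply, zero_sub, abs_neg, abs_mul, abs_of_pos hτ0]
    rw [h2]
    linarith [norm_nonneg ((0 : L1) - lp.single 1 k ((0 : L1) k) - m • a - y.fst)]
  have hle : ∀ x : WithLp 2 (L1 × Y), ‖x.fst‖ ≤ ‖x‖ := by
    intro x
    have := nsq x
    exact abs_le_of_sq_le_sq' (by nlinarith [sq_nonneg ‖x.snd‖]) (norm_nonneg _) |>.2
  have hs3 : (√3 : ℝ) ^ 2 = 3 := Real.sq_sqrt (by norm_num)
  have hs0 : 0 < (√3 : ℝ) := Real.sqrt_pos.2 (by norm_num)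
  have hs2 : 2 / √3 < 2 := by
    rw [div_lt_iff₀ hs0]; nlinarith
  -- multiples `±1`
  have hone : ∀ y ∈ G, ∀ m : ℤ, m = 1 ∨ m = -1 → ∃ y' ∈ G,
      ‖(y + m • g₁)‖ = ‖g₁ - y'‖ ∧ ‖(y + m • g₁).fst‖ = ‖a - y'.fst‖ + τ ∧
      ‖(y + m • g₁).snd‖ = ‖h - y'.snd‖ := by
    intro y hy m hm
    obtain ⟨y', hy', hyy⟩ : ∃ y' ∈ G, (y + m • g₁ = g₁ - y' ∨ y + m • g₁ = -(g₁ - y')) := by
      rcases hm with rfl | rfl
      · exact ⟨-y, neg_mem hy, Or.inl (by simp; abel)⟩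
      · exact ⟨y, hy, Or.inr (by simp; abel)⟩
    have e1 : ‖(g₁ - y').fst‖ = ‖a - y'.fst‖ + τ := by
      have e : (g₁ - y').fst = (a - y'.fst) + lp.single 1 k τ := by
        rw [WithLp.sub_fst, hg₁]; simp only [WithLp.toLp_fst]; abel
      rw [e, norm_add_single _ _ _ (by
        rw [lp.coeFn_sub, Pi.sub_apply, ha k le_rfl, hG hy' k le_rfl, sub_zero]),
        abs_of_pos hτ0]
    have e2 : (g₁ - y').snd = h - y'.snd := rfl
    refine ⟨y', hy', ?_⟩
    rcases hyy with e | e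
    · rw [e]; exact ⟨rfl, e1, by rw [e2]⟩
    · rw [e, norm_neg, WithLp.neg_fst, WithLp.neg_snd, norm_neg, norm_neg]
      exact ⟨rfl, e1, by rw [e2]⟩
  -- decomposition
  have hdec : ∀ g ∈ G ⊔ AddSubgroup.zmultiples g₁, ∃ y ∈ G, ∃ m : ℤ, g = y + m • g₁ := by
    intro g hgm
    obtain ⟨y, hy, w, hw, rfl⟩ := AddSubgroup.mem_sup.1 hgm
    obtain ⟨m, rfl⟩ := AddSubgroup.mem_zmultiples_iff.1 hw
    exact ⟨y, hy, m, rfl⟩
  -- three cases for a nonzero element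
  have hcases : ∀ g ∈ G ⊔ AddSubgroup.zmultiples g₁, g ≠ 0 →
      g ∈ G ∨ (∃ y' ∈ G, ‖g‖ = ‖g₁ - y'‖ ∧ ‖g.fst‖ = ‖a - y'.fst‖ + τ ∧
        ‖g.snd‖ = ‖h - y'.snd‖) ∨ 2 ≤ ‖g.fst‖ := by
    intro g hgm hg0
    obtain ⟨y, hy, m, rfl⟩ := hdec g hgm
    by_cases hm0 : m = 0
    · left; subst hm0; simpa using hy
    by_cases hm1 : m = 1 ∨ m = -1
    · right; left; exact hone y hy m hm1
    right; right
    push Not at hm1
    have hm : (2 : ℝ) ≤ |(m : ℝ)| := by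
      have : (2 : ℤ) ≤ |m| := by
        rcases le_total 0 m with h0 | h0
        · rw [abs_of_nonneg h0]; omega
        · rw [abs_of_nonpos h0]; omega
      exact_mod_cast this
    have := hnorm y hy m
    nlinarith
  refine ⟨⟨?_, ?_, ?_, ?_⟩, sup_le (hG.trans (Vk_mono (by omega))) (by
    rw [AddSubgroup.zmultiples_le]; exact hg₁V)⟩
  · intro g hgm hg0
    rcases hcases g hgm hg0 with h1 | ⟨y', hy', h1, -, -⟩ | h1
    · exact hI.sep g h1 hg0
    · rw [h1]; exact hg y' hy'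
    · exact h1.trans (hle g)
  · intro g hgm hg0
    rcases hcases g hgm hg0 with h1 | ⟨y', hy', -, h1, -⟩ | h1
    · exact hI.one g h1 hg0
    · rw [h1]; linarith [norm_nonneg (a - y'.fst)]
    · linarith
  · intro g hgm hg0 hlt
    rcases hcases g hgm hg0 with h1 | ⟨y', hy', -, h1, h2⟩ | h1
    · exact hI.near g h1 hg0 hlt
    · rw [h2]; rw [h1] at hlt; exact hg' y' hy' hlt
    · exact absurd hlt (by linarith)
  · intro c u hu v hv w hw huv huw hvw
    obtain ⟨y₁, hy₁, m₁, rfl⟩ := hdec u hu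
    obtain ⟨y₂, hy₂, m₂, rfl⟩ := hdec v hv
    obtain ⟨y₃, hy₃, m₃, rfl⟩ := hdec w hw
    rw [hsplit y₁ hy₁, hsplit y₂ hy₂, hsplit y₃ hy₃]
    set c' := c - lp.single 1 k (c k) with hc'
    have n1 := norm_nonneg (c' - m₁ • a - y₁.fst)
    have n2 := norm_nonneg (c' - m₂ • a - y₂.fst)
    have n3 := norm_nonneg (c' - m₃ • a - y₃.fst)
    have a1 := abs_nonneg (c k - m₁ * τ)
    have a2 := abs_nonneg (c k - m₂ * τ)
    have a3 := abs_nonneg (c k - m₃ * τ)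
    -- pairs with the same multiple
    have P : ∀ y ∈ G, ∀ y' ∈ G, ∀ m m' : ℤ, m = m' → y + m • g₁ ≠ y' + m' • g₁ →
        1 ≤ ‖c' - m • a - y.fst‖ + ‖c' - m' • a - y'.fst‖ := by
      intro y hy y' hy' m m' hm hne
      subst hm
      exact hI.two _ hy hy' (fun h => hne (by rw [h]))
    have Q : ∀ m m' : ℤ, m ≠ m' → 1 ≤ |c k - m * τ| + |c k - m' * τ| := by
      intro m m' hm
      have := int_gap (α := c k) hτ1 (m := m) (n := m') 1
        (by exact_mod_cast Int.one_le_abs (sub_ne_zero.2 hm))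
      rwa [Nat.cast_one] at this
    have Q2 : ∀ m m' : ℤ, 2 ≤ |m - m'| → 2 ≤ |c k - m * τ| + |c k - m' * τ| := by
      intro m m' hm
      have := int_gap (α := c k) hτ1 (m := m) (n := m') 2 (by exact_mod_cast hm)
      rwa [Nat.cast_ofNat] at this
    by_cases h12 : m₁ = m₂
    · by_cases h13 : m₁ = m₃
      · subst h12; subst h13
        have := hI.three (c' - m₁ • a) y₁ hy₁ y₂ hy₂ y₃ hy₃ (fun h => huv (by rw [h]))
          (fun h => huw (by rw [h])) (fun h => hvw (by rw [h]))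
        linarith
      · have := P y₁ hy₁ y₂ hy₂ m₁ m₂ h12 huv
        have := Q m₁ m₃ h13
        linarith
    · by_cases h13 : m₁ = m₃
      · have := P y₁ hy₁ y₃ hy₃ m₁ m₃ h13 huw
        have := Q m₁ m₂ h12
        linarith
      · by_cases h23 : m₂ = m₃
        · have := P y₂ hy₂ y₃ hy₃ m₂ m₃ h23 hvw
          have := Q m₁ m₂ h12
          linarith
        · have : 2 ≤ |m₁ - m₂| ∨ 2 ≤ |m₁ - m₃| ∨ 2 ≤ |m₂ - m₃| := by
            by_contra hcon
            push Not at hcon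
            obtain ⟨c1, c2, c3⟩ := hcon
            rw [abs_lt] at c1 c2 c3
            omega
          rcases this with h | h | h
          · linarith [Q2 _ _ h]
          · linarith [Q2 _ _ h]
          · linarith [Q2 _ _ h]

end machinery

section step

variable {Y : Type*} [NormedAddCommGroup Y] [InnerProductSpace ℝ Y]

/-- One step of the construction. -/
lemma step (k : ℕ) (G : AddSubgroup (WithLp 2 (L1 × Y))) (hI : Inv G) (hG : G ≤ Vk Y k)
    (x : WithLp 2 (L1 × Y)) (hx : x ∈ Vk Y k) :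
    ∃ G' : AddSubgroup (WithLp 2 (L1 × Y)), G ≤ G' ∧ Inv G' ∧ G' ≤ Vk Y (k + 1) ∧
      ∃ y ∈ G', ‖x - y‖ ≤ 2 / √3 := by
  by_cases hc : ∃ y ∈ G, ‖x - y‖ ≤ 2 / √3
  · exact ⟨G, le_rfl, hI, hG.trans (Vk_mono (by omega)), hc⟩
  push Not at hc
  have hs3 : (√3 : ℝ) ^ 2 = 3 := Real.sq_sqrt (by norm_num)
  have hs0 : 0 < (√3 : ℝ) := Real.sqrt_pos.2 (by norm_num)
  set s : ℝ := √3 with hs
  set r : G → ℝ := fun y => s * ‖x.fst - (y : WithLp 2 (L1 × Y)).fst‖ with hr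
  set z : G → Y := fun y => s • ((y : WithLp 2 (L1 × Y)).snd - x.snd) with hz
  have hzn : ∀ y : G, ‖z y‖ = s * ‖x.snd - (y : WithLp 2 (L1 × Y)).snd‖ := by
    intro y
    rw [hz]
    simp only
    rw [norm_smul, Real.norm_of_nonneg hs0.le, norm_sub_rev]
  have hne : ∀ i j : G, i ≠ j → (i : WithLp 2 (L1 × Y)) ≠ j := fun i j h h' => h (Subtype.ext h')
  obtain ⟨t, w, ht, htw, hd, hn⟩ := Pool.Agent.J4.H78.PC.core hs3 hs0 r z
    (fun i => by positivity)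
    (by
      intro i
      have h1 := pow_lt_pow_left₀ (hc i i.2) (by positivity) (n := 2) (by norm_num)
      rw [nsq, WithLp.sub_fst, WithLp.sub_snd, div_pow, hs3] at h1
      rw [hzn]
      simp only [hr]
      rw [mul_pow, mul_pow, hs3]
      linarith)
    (by
      intro i j hij
      have := hI.two x.fst i.2 j.2 (hne i j hij)
      simp only [hr]
      nlinarith)
    (by
      intro i j l hij hil hjl
      have := hI.three x.fst i i.2 j j.2 l l.2 (hne i j hij) (hne i l hil) (hne j l hjl)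
      simp only [hr]
      nlinarith)
    (by
      intro i j hij hlt
      have h1 : ((i : WithLp 2 (L1 × Y)) - j) ∈ G := sub_mem i.2 j.2
      have h2 := hI.near _ h1 (sub_ne_zero.2 (hne i j hij))
      rw [WithLp.sub_fst, WithLp.sub_snd] at h2
      have h3 : ‖(i : WithLp 2 (L1 × Y)).fst - (j : WithLp 2 (L1 × Y)).fst‖ ≤
          ‖x.fst - (i : WithLp 2 (L1 × Y)).fst‖ + ‖x.fst - (j : WithLp 2 (L1 × Y)).fst‖ := by
        have : (i : WithLp 2 (L1 × Y)).fst - (j : WithLp 2 (L1 × Y)).fst =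
          (x.fst - (j : WithLp 2 (L1 × Y)).fst) - (x.fst - (i : WithLp 2 (L1 × Y)).fst) := by abel
        rw [this]
        linarith [norm_sub_le (x.fst - (j : WithLp 2 (L1 × Y)).fst)
          (x.fst - (i : WithLp 2 (L1 × Y)).fst)]
      simp only [hr] at hlt
      have h4 := h2 (by
        rw [lt_div_iff₀ hs0]
        nlinarith)
      have h5 : z i - z j = s • ((i : WithLp 2 (L1 × Y)).snd - (j : WithLp 2 (L1 × Y)).snd) := by
        simp only [hz]
        rw [← smul_sub]; congr 1; abel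
      rw [h5, norm_smul, Real.norm_of_nonneg hs0.le]
      nlinarith)
  set τ : ℝ := t / s with hτ
  have hτ1 : 1 ≤ τ := by rw [hτ, le_div_iff₀ hs0]; linarith
  set u : Y := x.snd + (1 / s) • w with hu
  have hsτ : s * τ = t := by rw [hτ]; field_simp
  have husnd : ∀ y : G, ‖w - z y‖ = s * ‖u - (y : WithLp 2 (L1 × Y)).snd‖ := by
    intro y
    have : w - z y = s • (u - (y : WithLp 2 (L1 × Y)).snd) := by
      have h1 : s * (1 / s) = 1 := by field_simp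
      simp only [hz, hu]
      rw [smul_sub s (x.snd + (1 / s) • w), smul_add, smul_smul, smul_sub, h1, one_smul]
      abel
    rw [this, norm_smul, Real.norm_of_nonneg hs0.le]
  have hkey : ∀ y ∈ G, 2 ≤ ‖toLp 2 (x.fst + lp.single 1 k τ, u) - y‖ := by
    intro y hy
    have h1 := hd ⟨y, hy⟩
    rw [husnd] at h1
    simp only [hr] at h1
    have e1 : ‖(toLp 2 (x.fst + lp.single 1 k τ, u) - y).fst‖ = ‖x.fst - y.fst‖ + τ := by
      have e : (toLp 2 (x.fst + lp.single 1 k τ, u) - y).fst =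
          (x.fst - y.fst) + lp.single 1 k τ := by
        rw [WithLp.sub_fst]; simp only [WithLp.toLp_fst]; abel
      rw [e, norm_add_single _ _ _ (by
        rw [lp.coeFn_sub, Pi.sub_apply, hx k le_rfl, hG hy k le_rfl, sub_zero]),
        abs_of_nonneg (by linarith)]
    have e2 : (toLp 2 (x.fst + lp.single 1 k τ, u) - y).snd = u - y.snd := rfl
    have h2 : 4 ≤ ‖toLp 2 (x.fst + lp.single 1 k τ, u) - y‖ ^ 2 := by
      rw [nsq, e1, e2]
      have h3 : (t + s * ‖x.fst - y.fst‖) ^ 2 + (s * ‖u - y.snd‖) ^ 2 =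
          3 * ((‖x.fst - y.fst‖ + τ) ^ 2 + ‖u - y.snd‖ ^ 2) := by
        rw [← hsτ]
        have : (s * τ + s * ‖x.fst - y.fst‖) ^ 2 + (s * ‖u - y.snd‖) ^ 2 =
          s ^ 2 * ((‖x.fst - y.fst‖ + τ) ^ 2 + ‖u - y.snd‖ ^ 2) := by ring
        rw [this, hs3]
      rw [h3] at h1
      linarith
    by_contra hlt
    push Not at hlt
    nlinarith [norm_nonneg (toLp 2 (x.fst + lp.single 1 k τ, u) - y)]
  have hkey2 : ∀ y ∈ G, ‖x.fst - y.fst‖ + τ < 2 / √3 → ‖u - y.snd‖ ≤ √3 := by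
    intro y hy hlt
    have h1 := hn ⟨y, hy⟩ (by
      simp only [hr]
      rw [lt_div_iff₀ hs0] at hlt
      nlinarith)
    rw [husnd] at h1
    simp only at h1
    by_contra hcon
    push Not at hcon
    nlinarith
  obtain ⟨hA, hB⟩ := add_gen' k G hG hI τ hτ1 x.fst hx u hkey hkey2
  refine ⟨_, le_sup_left, hA, hB, toLp 2 (x.fst + lp.single 1 k τ, u),
    (le_sup_right : AddSubgroup.zmultiples (toLp 2 (x.fst + lp.single 1 k τ, u)) ≤ _)
      (AddSubgroup.mem_zmultiples _), ?_⟩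
  have e : ‖x - toLp 2 (x.fst + lp.single 1 k τ, u)‖ ^ 2 ≤ (2 / s) ^ 2 := by
    rw [nsq]
    have e1 : (x - toLp 2 (x.fst + lp.single 1 k τ, u)).fst = - lp.single 1 k τ := by
      rw [WithLp.sub_fst]; simp only [WithLp.toLp_fst]; abel
    have e2 : (x - toLp 2 (x.fst + lp.single 1 k τ, u)).snd = -((1 / s) • w) := by
      have e3 : (x - toLp 2 (x.fst + lp.single 1 k τ, u)).snd = x.snd - u := rfl
      rw [e3, hu]; abel
    rw [e1, e2, norm_neg, norm_neg, lp.norm_single (by norm_num), Real.norm_of_nonneg (by linarith),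
      norm_smul, Real.norm_of_nonneg (by positivity), mul_pow, hτ, div_pow, div_pow, div_pow, hs3]
    linarith
  exact (abs_le_of_sq_le_sq' e (by positivity)).2

end step

/-- The subgroup. -/
theorem upper {Y : Type*} [NormedAddCommGroup Y] [InnerProductSpace ℝ Y]
    [TopologicalSpace.SeparableSpace Y] : ∃ D : AddSubgroup (WithLp 2 (L1 × Y)),
    Separated (D : Set (WithLp 2 (L1 × Y))) ∧
      ∀ ε > 0, DenseAt (2 / √3 + ε) (D : Set (WithLp 2 (L1 × Y))) := by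
  apply recursion (2 / √3) Inv ⊥ inv_bot bot_le
  · intro G hG; exact hG.sep
  · intro k G hG hGV x hx
    exact step k G hG hGV x hx

/-- **Main theorem.**  For every separable real inner product space `Y ≠ 0` the space `ℓ₁ ⊕₂ Y`
has `γ = γ* = 2/√3`; one subgroup serves for all `ρ > 2/√3`.  In particular
`γ(ℓ₁ ⊕₂ ℓ₂) = γ*(ℓ₁ ⊕₂ ℓ₂) = 2/√3`. -/
theorem result :
    (gamma (WithLp 2 (L1 × L2)) = 2 / √3 ∧ gammaStar (WithLp 2 (L1 × L2)) = 2 / √3) ∧
    ∀ (Y : Type) [NormedAddCommGroup Y] [InnerProductSpace ℝ Y]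
      [TopologicalSpace.SeparableSpace Y] [Nontrivial Y],
      gamma (WithLp 2 (L1 × Y)) = 2 / √3 ∧ gammaStar (WithLp 2 (L1 × Y)) = 2 / √3 ∧
      ∃ D : AddSubgroup (WithLp 2 (L1 × Y)), Separated (D : Set (WithLp 2 (L1 × Y))) ∧
        ∀ ρ > 2 / √3, DenseAt ρ (D : Set (WithLp 2 (L1 × Y))) := by
  have main : ∀ (Y : Type) [NormedAddCommGroup Y] [InnerProductSpace ℝ Y]
      [TopologicalSpace.SeparableSpace Y] [Nontrivial Y],
      gamma (WithLp 2 (L1 × Y)) = 2 / √3 ∧ gammaStar (WithLp 2 (L1 × Y)) = 2 / √3 ∧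
      ∃ D : AddSubgroup (WithLp 2 (L1 × Y)), Separated (D : Set (WithLp 2 (L1 × Y))) ∧
        ∀ ρ > 2 / √3, DenseAt ρ (D : Set (WithLp 2 (L1 × Y))) := by
    intro Y _ _ _ _
    have h0 := upper (Y := Y)
    have hA := gamma_le_star (2 / √3) h0
    have hB := gammaStar_le (2 / √3) h0
    have hC := le_gamma (2 / √3) (2 / √3) h0 (fun D ρ => lower (Y := Y) D ρ)
    refine ⟨le_antisymm (hA.trans hB) hC, le_antisymm hB (hC.trans hA), ?_⟩
    obtain ⟨D, h1, h2⟩ := h0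
    refine ⟨D, h1, fun ρ hρ => ?_⟩
    have := h2 (ρ - 2 / √3) (sub_pos.2 hρ)
    rwa [add_sub_cancel] at this
  exact ⟨⟨(main L2).1, (main L2).2.1⟩, main⟩

end Pool.Agent.Results.MP_d84bc5_an.HilbertSummand
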